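import Pool.Agent.Helper81.XP.Pj

set_option autoImplicit false

/-!
Further lemmas on `SL_2(K)` and the projective line.
-/

open Finset
open scoped Pointwise LinearAlgebra.Projectivization

namespace Pool.Agent.Helper5.XP

open Pool.Agent.Helper81.XP

variable {K : Type} [Field K]

theorem pp_ne (x : K) : (![x, 1] : Fin 2 → K) ≠ 0 := fun h => one_ne_zero (congrFun h 1)

/-- the point `[x : 1]` -/
def pp (x : K) : Pt K := Projectivization.mk K ![x, 1] (pp_ne x)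

theorem pt_cases (ξ : Pt K) : ξ = e1 K ∨ ∃ x, ξ = pp x := by
  obtain ⟨v, hv, rfl⟩ : ∃ v, ∃ hv : v ≠ 0, Projectivization.mk K v hv = ξ :=
    ⟨ξ.rep, ξ.rep_nonzero, ξ.mk_rep⟩
  by_cases h : v 1 = 0
  · left
    rw [e1, Projectivization.mk_eq_mk_iff']
    refine ⟨v 0, ?_⟩
    funext i
    fin_cases i <;> simp [h]
  · right
    refine ⟨v 0 / v 1, ?_⟩
    rw [pp, Projectivization.mk_eq_mk_iff']
    refine ⟨v 1, ?_⟩
    funext i
    fin_cases i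
    · simp only [Fin.zero_eta, Pi.smul_apply, Matrix.cons_val_zero, smul_eq_mul]
      field_simp
    · simp

theorem pp_ne_e1 (x : K) : pp x ≠ e1 K := by
  intro h
  obtain ⟨c, hc⟩ := (Projectivization.mk_eq_mk_iff' K _ _ (pp_ne x) e1_ne).1 h
  have := congrFun hc 1
  simp at this

theorem smul_pp_eq_pp (g : SL K) (x y : K) :
    g • pp x = pp y ↔ (g : Matrix (Fin 2) (Fin 2) K) 0 0 * x +
      (g : Matrix (Fin 2) (Fin 2) K) 0 1 = ((g : Matrix (Fin 2) (Fin 2) K) 1 0 * x +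
      (g : Matrix (Fin 2) (Fin 2) K) 1 1) * y := by
  rw [pp, pp, smul_pt_eq_iff]
  constructor
  · rintro ⟨c, hc⟩
    have h0 := congrFun hc 0
    have h1 := congrFun hc 1
    simp [Matrix.mulVec, dotProduct, Fin.sum_univ_two] at h0 h1
    rw [h0, h1]
  · intro h
    refine ⟨(g : Matrix (Fin 2) (Fin 2) K) 1 0 * x + (g : Matrix (Fin 2) (Fin 2) K) 1 1, ?_⟩
    funext i
    fin_cases i
    · simpa [Matrix.mulVec, dotProduct, Fin.sum_univ_two] using h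
    · simp [Matrix.mulVec, dotProduct, Fin.sum_univ_two]

theorem conj_ne_one {Γ : Type} [Group Γ] (c g : Γ) (h : g ≠ 1) : c * g * c⁻¹ ≠ 1 := by
  intro h1
  apply h
  have : g = c⁻¹ * (c * g * c⁻¹) * c := by group
  rw [this, h1]
  group

theorem conj_ne_neg_one (c g : SL K) (h : g ≠ -1) : c * g * c⁻¹ ≠ -1 := by
  intro h1
  apply h
  have : g = c⁻¹ * (c * g * c⁻¹) * c := by group
  rw [this, h1]
  simp

/-- conjugation moves fixed points -/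
theorem conj_fix_iff {Γ Y : Type} [Group Γ] [MulAction Γ Y] (c g : Γ) (ξ : Y) :
    (c * g * c⁻¹) • ξ = ξ ↔ g • (c⁻¹ • ξ) = c⁻¹ • ξ := by
  have := conj_smul_eq_iff c g (c⁻¹ • ξ) (c⁻¹ • ξ)
  rwa [smul_inv_smul] at this

theorem ct_eq_one {Γ : Type} [Group Γ] (g h : Γ) : ct g h = 1 ↔ g * h = h * g := by
  unfold ct
  rw [mul_inv_eq_one, mul_inv_eq_iff_eq_mul]

theorem dc_conj {Γ : Type} [Group Γ] (c g1 g2 g3 g4 : Γ) :
    dc (c * g1 * c⁻¹) (c * g2 * c⁻¹) (c * g3 * c⁻¹) (c * g4 * c⁻¹) =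
      c * dc g1 g2 g3 g4 * c⁻¹ := by
  unfold dc
  rw [ct_conj, ct_conj, ct_conj]

theorem sl_ext {g h : SL K}
    (h00 : (g : Matrix (Fin 2) (Fin 2) K) 0 0 = (h : Matrix (Fin 2) (Fin 2) K) 0 0)
    (h01 : (g : Matrix (Fin 2) (Fin 2) K) 0 1 = (h : Matrix (Fin 2) (Fin 2) K) 0 1)
    (h10 : (g : Matrix (Fin 2) (Fin 2) K) 1 0 = (h : Matrix (Fin 2) (Fin 2) K) 1 0)
    (h11 : (g : Matrix (Fin 2) (Fin 2) K) 1 1 = (h : Matrix (Fin 2) (Fin 2) K) 1 1) : g = h := by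
  ext i j
  fin_cases i <;> fin_cases j
  · exact h00
  · exact h01
  · exact h10
  · exact h11

theorem mul_ent (g h : SL K) (i j : Fin 2) : ((g * h : SL K) : Matrix (Fin 2) (Fin 2) K) i j =
    (g : Matrix (Fin 2) (Fin 2) K) i 0 * (h : Matrix (Fin 2) (Fin 2) K) 0 j +
      (g : Matrix (Fin 2) (Fin 2) K) i 1 * (h : Matrix (Fin 2) (Fin 2) K) 1 j := by
  rw [Matrix.SpecialLinearGroup.coe_mul, Matrix.mul_apply, Fin.sum_univ_two]

theorem inv00 (g : SL K) : ((g⁻¹ : SL K) : Matrix (Fin 2) (Fin 2) K) 0 0 =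
    (g : Matrix (Fin 2) (Fin 2) K) 1 1 := by
  rw [Matrix.SpecialLinearGroup.SL2_inv_expl]
  rfl

theorem inv01 (g : SL K) : ((g⁻¹ : SL K) : Matrix (Fin 2) (Fin 2) K) 0 1 =
    -(g : Matrix (Fin 2) (Fin 2) K) 0 1 := by
  rw [Matrix.SpecialLinearGroup.SL2_inv_expl]
  rfl

theorem inv10 (g : SL K) : ((g⁻¹ : SL K) : Matrix (Fin 2) (Fin 2) K) 1 0 =
    -(g : Matrix (Fin 2) (Fin 2) K) 1 0 := by
  rw [Matrix.SpecialLinearGroup.SL2_inv_expl]
  rfl

theorem inv11 (g : SL K) : ((g⁻¹ : SL K) : Matrix (Fin 2) (Fin 2) K) 1 1 =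
    (g : Matrix (Fin 2) (Fin 2) K) 0 0 := by
  rw [Matrix.SpecialLinearGroup.SL2_inv_expl]
  rfl

end Pool.Agent.Helper5.XP
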