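import Pool.Agent.Helper5.XP.Bs
import Pool.Agent.Helper81.XP.StA

set_option autoImplicit false

open Finset
open scoped Pointwise LinearAlgebra.Projectivization

namespace Pool.Agent.Helper5.XP

open Pool.Agent.Helper81.XP

theorem st_FIX : ST_FIX := by
  intro K _ _ g hg1 hg2
  obtain ⟨ξ0, h0⟩ := exists_fix g
  obtain ⟨c, hc⟩ := exists_move1 ξ0
  set g' := c * g * c⁻¹ with hg'
  have hfix : g' • e1 K = e1 K := by
    rw [← hc, hg', conj_smul_eq_iff, h0]
  have h10 := (smul_e1_eq_e1 g').1 hfix
  have hdet := det_eq g'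
  rw [h10, mul_zero, sub_zero] at hdet
  have htr : tr g ^ 2 - 4 = ((g' : Matrix (Fin 2) (Fin 2) K) 0 0 -
      (g' : Matrix (Fin 2) (Fin 2) K) 1 1) ^ 2 := by
    rw [← tr_conj c g, ← hg', tr_eq]
    linear_combination (4 : K) * hdet
  have hn1 := conj_ne_one c g hg1
  have hn2 := conj_ne_neg_one c g hg2
  rw [← hg'] at hn1 hn2
  have hfx : ∀ ξ : Pt K, g • ξ = ξ ↔ g' • (c • ξ) = c • ξ := by
    intro ξ
    rw [hg', conj_smul_eq_iff]
  by_cases had : (g' : Matrix (Fin 2) (Fin 2) K) 0 0 = (g' : Matrix (Fin 2) (Fin 2) K) 1 1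
  · have hb : (g' : Matrix (Fin 2) (Fin 2) K) 0 1 ≠ 0 := by
      intro hb
      rcases eq_pm_one g' hb h10 had with h | h
      · exact hn1 h
      · exact hn2 h
    refine ⟨ξ0, ξ0, fun ξ => ?_, ?_⟩
    · rw [or_self]
      constructor
      · intro h
        rw [hfx] at h
        rcases pt_cases (c • ξ) with h2 | ⟨x, h2⟩
        · rw [← hc] at h2
          exact smul_left_cancel c h2
        · exfalso
          rw [h2, smul_pp_eq_pp, h10, had] at h
          apply hb
          linear_combination h
      · rintro rfl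
        exact h0
    · refine iff_of_true rfl ?_
      rw [had, sub_self] at htr
      linear_combination htr
  · have hsub : (g' : Matrix (Fin 2) (Fin 2) K) 1 1 - (g' : Matrix (Fin 2) (Fin 2) K) 0 0 ≠ 0 :=
      fun h => had (sub_eq_zero.1 h).symm
    set x0 := (g' : Matrix (Fin 2) (Fin 2) K) 0 1 /
      ((g' : Matrix (Fin 2) (Fin 2) K) 1 1 - (g' : Matrix (Fin 2) (Fin 2) K) 0 0) with hx0
    have hx0' : x0 * ((g' : Matrix (Fin 2) (Fin 2) K) 1 1 -
        (g' : Matrix (Fin 2) (Fin 2) K) 0 0) = (g' : Matrix (Fin 2) (Fin 2) K) 0 1 := by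
      rw [hx0]
      field_simp
    refine ⟨ξ0, c⁻¹ • pp x0, fun ξ => ?_, ?_⟩
    · constructor
      · intro h
        rw [hfx] at h
        rcases pt_cases (c • ξ) with h2 | ⟨x, h2⟩
        · left
          rw [← hc] at h2
          exact smul_left_cancel c h2
        · right
          rw [h2, smul_pp_eq_pp, h10] at h
          have hx : x = x0 := by
            apply mul_right_cancel₀ hsub
            rw [hx0']
            linear_combination -h
          rw [← hx, ← h2, inv_smul_smul]
      · rintro (rfl | rfl)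
        · exact h0
        · rw [hfx, smul_inv_smul, smul_pp_eq_pp, h10]
          linear_combination -hx0'
    · constructor
      · intro h
        exfalso
        rw [h, smul_inv_smul] at hc
        exact pp_ne_e1 _ hc
      · intro h
        exfalso
        have h3 : ((g' : Matrix (Fin 2) (Fin 2) K) 0 0 -
          (g' : Matrix (Fin 2) (Fin 2) K) 1 1) ^ 2 = 0 := by rw [← htr, h, sub_self]
        exact had (sub_eq_zero.1 (pow_eq_zero_iff two_ne_zero |>.1 h3))

end Pool.Agent.Helper5.XP
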