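import Pool.Agent.Helper5.XP.Bs
import Pool.Agent.Helper81.XP.StA

set_option autoImplicit false

open Finset
open scoped Pointwise LinearAlgebra.Projectivization

namespace Pool.Agent.Helper5.XP

open Pool.Agent.Helper81.XP

variable {K : Type} [Field K]

/-- commutators of upper triangular matrices are unipotent -/
theorem ct_upper (g h : SL K) (hg : (g : Matrix (Fin 2) (Fin 2) K) 1 0 = 0)
    (hh : (h : Matrix (Fin 2) (Fin 2) K) 1 0 = 0) :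
    ((ct g h : SL K) : Matrix (Fin 2) (Fin 2) K) 1 0 = 0 ∧
    ((ct g h : SL K) : Matrix (Fin 2) (Fin 2) K) 0 0 = 1 ∧
    ((ct g h : SL K) : Matrix (Fin 2) (Fin 2) K) 1 1 = 1 := by
  have d1 := det_eq g
  have d2 := det_eq h
  rw [hg] at d1
  rw [hh] at d2
  simp only [ct, mul_ent, inv00, inv01, inv10, inv11, hg, hh]
  refine ⟨by ring, ?_, ?_⟩
  · linear_combination (h : Matrix (Fin 2) (Fin 2) K) 0 0 *
      (h : Matrix (Fin 2) (Fin 2) K) 1 1 * d1 + d2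
  · linear_combination (h : Matrix (Fin 2) (Fin 2) K) 0 0 *
      (h : Matrix (Fin 2) (Fin 2) K) 1 1 * d1 + d2

theorem comm_uni (g h : SL K) (hg : (g : Matrix (Fin 2) (Fin 2) K) 1 0 = 0 ∧
      (g : Matrix (Fin 2) (Fin 2) K) 0 0 = 1 ∧ (g : Matrix (Fin 2) (Fin 2) K) 1 1 = 1)
    (hh : (h : Matrix (Fin 2) (Fin 2) K) 1 0 = 0 ∧
      (h : Matrix (Fin 2) (Fin 2) K) 0 0 = 1 ∧ (h : Matrix (Fin 2) (Fin 2) K) 1 1 = 1) :
    g * h = h * g := by
  obtain ⟨a1, a2, a3⟩ := hg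
  obtain ⟨b1, b2, b3⟩ := hh
  apply sl_ext <;> simp only [mul_ent, a1, a2, a3, b1, b2, b3] <;> ring

/-- diagonal or antidiagonal -/
def DA (g : SL K) : Prop :=
  ((g : Matrix (Fin 2) (Fin 2) K) 0 1 = 0 ∧ (g : Matrix (Fin 2) (Fin 2) K) 1 0 = 0) ∨
  ((g : Matrix (Fin 2) (Fin 2) K) 0 0 = 0 ∧ (g : Matrix (Fin 2) (Fin 2) K) 1 1 = 0)

theorem ct_da (g h : SL K) (hg : DA g) (hh : DA h) :
    ((ct g h : SL K) : Matrix (Fin 2) (Fin 2) K) 0 1 = 0 ∧
    ((ct g h : SL K) : Matrix (Fin 2) (Fin 2) K) 1 0 = 0 := by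
  simp only [ct, mul_ent, inv00, inv01, inv10, inv11]
  rcases hg with ⟨a, b⟩ | ⟨a, b⟩ <;> rcases hh with ⟨c, d⟩ | ⟨c, d⟩ <;> rw [a, b, c, d] <;>
    constructor <;> ring

theorem comm_diag (g h : SL K) (hg : (g : Matrix (Fin 2) (Fin 2) K) 0 1 = 0 ∧
      (g : Matrix (Fin 2) (Fin 2) K) 1 0 = 0)
    (hh : (h : Matrix (Fin 2) (Fin 2) K) 0 1 = 0 ∧
      (h : Matrix (Fin 2) (Fin 2) K) 1 0 = 0) : g * h = h * g := by
  obtain ⟨a1, a2⟩ := hg
  obtain ⟨b1, b2⟩ := hh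
  apply sl_ext <;> simp only [mul_ent, a1, a2, b1, b2] <;> ring

theorem st_MET : ST_MET := by
  intro K _ ξ1 ξ2 h hh
  by_cases he : ξ1 = ξ2
  · subst he
    obtain ⟨c, hc⟩ := exists_move1 ξ1
    have h1 : ∀ i, ((c * h i * c⁻¹ : SL K) : Matrix (Fin 2) (Fin 2) K) 1 0 = 0 := by
      intro i
      rw [← smul_e1_eq_e1, ← hc, conj_smul_eq_iff]
      rcases (hh i).1 with h | h <;> exact h
    have h2 : dc (c * h 0 * c⁻¹) (c * h 1 * c⁻¹) (c * h 2 * c⁻¹) (c * h 3 * c⁻¹) = 1 := by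
      unfold dc
      rw [ct_eq_one]
      exact comm_uni _ _ (ct_upper _ _ (h1 0) (h1 1)) (ct_upper _ _ (h1 2) (h1 3))
    rw [dc_conj] at h2
    by_contra h3
    exact conj_ne_one c _ h3 h2
  · obtain ⟨c, hc1, hc2⟩ := exists_move ξ1 ξ2 he
    have h1 : ∀ i, DA (c * h i * c⁻¹) := by
      intro i
      have hd := det_eq (c * h i * c⁻¹)
      have e1' : (c * h i * c⁻¹) • e1 K = e1 K ∨ (c * h i * c⁻¹) • e1 K = e2 K := by
        rw [← hc1, ← hc2, conj_smul_eq_iff, conj_smul_eq_iff]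
        exact (hh i).1
      have e2' : (c * h i * c⁻¹) • e2 K = e1 K ∨ (c * h i * c⁻¹) • e2 K = e2 K := by
        rw [← hc1, ← hc2, conj_smul_eq_iff, conj_smul_eq_iff]
        exact (hh i).2
      rw [smul_e1_eq_e1, smul_e1_eq_e2] at e1'
      rw [smul_e2_eq_e1, smul_e2_eq_e2] at e2'
      rcases e1' with a | a <;> rcases e2' with b | b
      · rw [a, b] at hd
        simp at hd
      · exact Or.inl ⟨b, a⟩
      · exact Or.inr ⟨a, b⟩
      · rw [a, b] at hd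
        simp at hd
    have h2 : dc (c * h 0 * c⁻¹) (c * h 1 * c⁻¹) (c * h 2 * c⁻¹) (c * h 3 * c⁻¹) = 1 := by
      unfold dc
      rw [ct_eq_one]
      exact comm_diag _ _ (ct_da _ _ (h1 0) (h1 1)) (ct_da _ _ (h1 2) (h1 3))
    rw [dc_conj] at h2
    by_contra h3
    exact conj_ne_one c _ h3 h2

end Pool.Agent.Helper5.XP
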