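import Pool.Agent.Helper5.XP.Bs
import Pool.Agent.Helper81.XP.StB

set_option autoImplicit false

open Finset
open scoped Pointwise LinearAlgebra.Projectivization

namespace Pool.Agent.Helper5.XP

open Pool.Agent.Helper81.XP

theorem st_NRF : ST_NRF := by
  intro K _ _ A B hAB
  obtain ⟨ξ, hξ⟩ := exists_fix (A * B)
  obtain ⟨v, hv, rfl⟩ : ∃ v, ∃ hv : v ≠ 0, Projectivization.mk K v hv = ξ :=
    ⟨ξ.rep, ξ.rep_nonzero, ξ.mk_rep⟩
  have hA : A • (Projectivization.mk K v hv : Pt K) ≠ Projectivization.mk K v hv := by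
    intro h
    refine hAB _ h ?_
    rw [mul_smul] at hξ
    calc B • (Projectivization.mk K v hv : Pt K)
        = A⁻¹ • (A • (B • (Projectivization.mk K v hv : Pt K))) := by rw [inv_smul_smul]
      _ = A⁻¹ • (A • (Projectivization.mk K v hv : Pt K)) := by rw [hξ, h]
      _ = _ := by rw [inv_smul_smul]
  rw [smul_pt_fix_iff] at hξ
  obtain ⟨κ, hκ⟩ := hξ
  have hκ0 : κ ≠ 0 := by
    rintro rfl
    rw [zero_smul] at hκ
    exact mulVec_ne _ hv hκ
  have k0 := congrFun hκ 0
  have k1 := congrFun hκ 1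
  simp only [Matrix.mulVec, dotProduct, Fin.sum_univ_two, mul_ent, Pi.smul_apply,
    smul_eq_mul] at k0 k1
  have dA := det_eq A
  have dB := det_eq B
  have nA : ¬ ∃ c : K, (A : Matrix (Fin 2) (Fin 2) K).mulVec v = c • v := by
    rw [← smul_pt_fix_iff A v hv]
    exact hA
  generalize hp : v 0 = p at *
  generalize hq : v 1 = q at *
  generalize ha : (A : Matrix (Fin 2) (Fin 2) K) 0 0 = a at *
  generalize hb : (A : Matrix (Fin 2) (Fin 2) K) 0 1 = b at *
  generalize hc : (A : Matrix (Fin 2) (Fin 2) K) 1 0 = c at *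
  generalize hd : (A : Matrix (Fin 2) (Fin 2) K) 1 1 = d at *
  generalize he : (B : Matrix (Fin 2) (Fin 2) K) 0 0 = e at *
  generalize hf : (B : Matrix (Fin 2) (Fin 2) K) 0 1 = f at *
  generalize hh : (B : Matrix (Fin 2) (Fin 2) K) 1 0 = h at *
  generalize hk : (B : Matrix (Fin 2) (Fin 2) K) 1 1 = k at *
  have H1 : e * p + f * q = κ * (d * p - b * q) := by
    linear_combination d * k0 - b * k1 - (e * p + f * q) * dA
  have H2 : h * p + k * q = κ * (a * q - c * p) := by
    linear_combination a * k1 - c * k0 - (h * p + k * q) * dA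
  have G1 : d * p - b * q = κ⁻¹ * (e * p + f * q) := by
    rw [H1]
    field_simp
  have G2 : a * q - c * p = κ⁻¹ * (h * p + k * q) := by
    rw [H2]
    field_simp
  have hD : c * p ^ 2 + (d - a) * p * q - b * q ^ 2 ≠ 0 := by
    intro h0
    apply nA
    by_cases hp0 : p = 0
    · have hq0 : q ≠ 0 := by
        intro hq0
        apply hv
        funext i
        fin_cases i
        · show v 0 = 0
          rw [hp, hp0]
        · show v 1 = 0
          rw [hq, hq0]
      have hb0 : b = 0 := by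
        rw [hp0] at h0
        have : b * q ^ 2 = 0 := by linear_combination -h0
        exact (mul_eq_zero.1 this).resolve_right (pow_ne_zero 2 hq0)
      refine ⟨d, ?_⟩
      funext i
      fin_cases i
      · simp [Matrix.mulVec, dotProduct, Fin.sum_univ_two, ha, hb, hp, hp0, hb0]
      · simp [Matrix.mulVec, dotProduct, Fin.sum_univ_two, hc, hd, hp, hq, hp0]
    · refine ⟨(a * p + b * q) / p, ?_⟩
      funext i
      fin_cases i
      · simp [Matrix.mulVec, dotProduct, Fin.sum_univ_two, ha, hb, hp, hq]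
        field_simp
      · simp [Matrix.mulVec, dotProduct, Fin.sum_univ_two, hc, hd, hp, hq]
        field_simp
        linear_combination h0
  obtain ⟨δ, hδ⟩ := IsAlgClosed.exists_pow_nat_eq (c * p ^ 2 + (d - a) * p * q - b * q ^ 2)
    (show 0 < 2 by norm_num)
  have hδ0 : δ ≠ 0 := by
    rintro rfl
    apply hD
    rw [← hδ]
    ring
  let M : SL K := ⟨!![p / δ, (b * q - d * p) / δ; q / δ, (c * p - a * q) / δ], by
    rw [Matrix.det_fin_two_of]
    field_simp
    rw [hδ]
    ring⟩
  have eA : A * M = M * vA ![tr A, tr B, κ⁻¹] := by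
    apply sl_ext
    · rw [mul_ent, mul_ent, ha, hb]
      simp only [M, vA, mA, tr_eq, ha, hd, Matrix.of_apply, Matrix.cons_val_zero,
        Matrix.cons_val_one, Matrix.cons_val']
      field_simp
      ring
    · rw [mul_ent, mul_ent, ha, hb]
      simp only [M, vA, mA, tr_eq, ha, hd, Matrix.of_apply, Matrix.cons_val_zero,
        Matrix.cons_val_one, Matrix.cons_val']
      field_simp
      linear_combination (-p) * dA
    · rw [mul_ent, mul_ent, hc, hd]
      simp only [M, vA, mA, tr_eq, ha, hd, Matrix.of_apply, Matrix.cons_val_zero,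
        Matrix.cons_val_one, Matrix.cons_val']
      field_simp
      ring
    · rw [mul_ent, mul_ent, hc, hd]
      simp only [M, vA, mA, tr_eq, ha, hd, Matrix.of_apply, Matrix.cons_val_zero,
        Matrix.cons_val_one, Matrix.cons_val']
      field_simp
      linear_combination (-q) * dA
  have hki : κ⁻¹ ≠ 0 := inv_ne_zero hκ0
  have vBe : ∀ i j, ((vB ![tr A, tr B, κ⁻¹] : SL K) : Matrix (Fin 2) (Fin 2) K) i j =
      (!![0, κ⁻¹; -κ, tr B] : Matrix (Fin 2) (Fin 2) K) i j := by
    intro i j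
    have : mB (tr B) κ⁻¹ = ⟨!![0, κ⁻¹; -(κ⁻¹)⁻¹, tr B], by
      simp [Matrix.det_fin_two, hκ0]⟩ := dif_pos hki
    show ((mB (tr B) κ⁻¹ : SL K) : Matrix (Fin 2) (Fin 2) K) i j = _
    rw [this]
    simp
  have eB : B * M = M * vB ![tr A, tr B, κ⁻¹] := by
    apply sl_ext
    · rw [mul_ent, mul_ent, vBe, vBe, he, hf]
      simp only [M, Matrix.of_apply, Matrix.cons_val_zero,
        Matrix.cons_val_one, Matrix.cons_val']
      field_simp
      linear_combination H1
    · rw [mul_ent, mul_ent, vBe, vBe, he, hf]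
      simp only [M, Matrix.of_apply, Matrix.cons_val_zero, tr_eq, he, hk,
        Matrix.cons_val_one, Matrix.cons_val']
      have : e * (b * q - d * p) + f * (c * p - a * q) =
          κ⁻¹ * p + (e + k) * (b * q - d * p) := by
        linear_combination k * G1 - f * G2 + κ⁻¹ * p * dB
      calc e * ((b * q - d * p) / δ) + f * ((c * p - a * q) / δ) =
          (e * (b * q - d * p) + f * (c * p - a * q)) / δ := by ring
        _ = _ := by rw [this]; ring
    · rw [mul_ent, mul_ent, vBe, vBe, hh, hk]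
      simp only [M, Matrix.of_apply, Matrix.cons_val_zero,
        Matrix.cons_val_one, Matrix.cons_val']
      field_simp
      linear_combination H2
    · rw [mul_ent, mul_ent, vBe, vBe, hh, hk]
      simp only [M, Matrix.of_apply, Matrix.cons_val_zero, tr_eq, he, hk,
        Matrix.cons_val_one, Matrix.cons_val']
      have : h * (b * q - d * p) + k * (c * p - a * q) =
          κ⁻¹ * q + (e + k) * (c * p - a * q) := by
        linear_combination (-h) * G1 + e * G2 + κ⁻¹ * q * dB
      calc h * ((b * q - d * p) / δ) + k * ((c * p - a * q) / δ) =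
          (h * (b * q - d * p) + k * (c * p - a * q)) / δ := by ring
        _ = _ := by rw [this]; ring
  have cA : M⁻¹ * A * M⁻¹⁻¹ = vA ![tr A, tr B, κ⁻¹] := by
    rw [inv_inv, mul_assoc, eA, ← mul_assoc, inv_mul_cancel, one_mul]
  have cB : M⁻¹ * B * M⁻¹⁻¹ = vB ![tr A, tr B, κ⁻¹] := by
    rw [inv_inv, mul_assoc, eB, ← mul_assoc, inv_mul_cancel, one_mul]
  refine ⟨![tr A, tr B, κ⁻¹], by simpa using hκ0, by simp, by simp, ?_, M⁻¹, cA, cB⟩
  have e1 : tr (A * B) = tr (vA ![tr A, tr B, κ⁻¹] * vB ![tr A, tr B, κ⁻¹]) := by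
    rw [← cA, ← cB, ← tr_conj M⁻¹ (A * B)]
    congr 1
    group
  have vAe : ∀ i j, ((vA ![tr A, tr B, κ⁻¹] : SL K) : Matrix (Fin 2) (Fin 2) K) i j =
      (!![tr A, -1; 1, 0] : Matrix (Fin 2) (Fin 2) K) i j := fun i j => rfl
  rw [e1, tr_eq (vA ![tr A, tr B, κ⁻¹] * vB ![tr A, tr B, κ⁻¹]), mul_ent, mul_ent, vBe, vBe, vBe,
    vBe, vAe, vAe, vAe, vAe]
  simp
  ring

end Pool.Agent.Helper5.XP
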