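import Pool.Agent.Helper5.XP.Bs
import Pool.Agent.Helper81.XP.StA

set_option autoImplicit false

open Finset
open scoped Pointwise LinearAlgebra.Projectivization

namespace Pool.Agent.Helper5.XP

open Pool.Agent.Helper81.XP

variable {K : Type} [Field K]

/-- the determinant of the additive commutator -/
theorem det_comm (g h : SL K) : ((g : Matrix (Fin 2) (Fin 2) K) * (h : Matrix (Fin 2) (Fin 2) K) -
    (h : Matrix (Fin 2) (Fin 2) K) * (g : Matrix (Fin 2) (Fin 2) K)).det = 2 - tr (ct g h) := by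
  have e : (g : Matrix (Fin 2) (Fin 2) K) * (h : Matrix (Fin 2) (Fin 2) K) -
      (h : Matrix (Fin 2) (Fin 2) K) * (g : Matrix (Fin 2) (Fin 2) K) =
      (((ct g h : SL K) : Matrix (Fin 2) (Fin 2) K) - 1) *
        ((h * g : SL K) : Matrix (Fin 2) (Fin 2) K) := by
    have h3 : ct g h * (h * g) = g * h := by
      unfold ct
      group
    rw [sub_mul, one_mul, ← Matrix.SpecialLinearGroup.coe_mul (ct g h) (h * g), h3,
      Matrix.SpecialLinearGroup.coe_mul, Matrix.SpecialLinearGroup.coe_mul]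
  rw [e, Matrix.det_mul, Matrix.SpecialLinearGroup.det_coe, mul_one, Matrix.det_fin_two, tr_eq]
  have hd := det_eq (ct g h)
  simp only [Matrix.sub_apply, Matrix.one_apply_eq, ne_eq, zero_ne_one, not_false_eq_true,
    Matrix.one_apply_ne, one_ne_zero, sub_zero]
  linear_combination hd

/-- matrices orthogonal to `1`, `g`, `h` are multiples of the additive commutator -/
theorem orth (u1 u2 u3 w1 w2 w3 m n r : K)
    (h1 : m * u1 + n * u2 + r * u3 = 0) (h2 : m * w1 + n * w2 + r * w3 = 0)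
    (hQ : -(u3 * w2 - w3 * u2) ^ 2 - (w3 * u1 - u3 * w1) * (u2 * w1 - w2 * u1) ≠ 0) :
    ∃ t : K, m = t * (u3 * w2 - w3 * u2) ∧ n = t * (w3 * u1 - u3 * w1) ∧
      r = t * (u2 * w1 - w2 * u1) := by
  have R1 : n * (u2 * w1 - w2 * u1) = r * (w3 * u1 - u3 * w1) := by
    linear_combination w1 * h1 - u1 * h2
  have R2 : r * (u3 * w2 - w3 * u2) = m * (u2 * w1 - w2 * u1) := by
    linear_combination w2 * h1 - u2 * h2
  have R3 : m * (w3 * u1 - u3 * w1) = n * (u3 * w2 - w3 * u2) := by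
    linear_combination w3 * h1 - u3 * h2
  refine ⟨-((u3 * w2 - w3 * u2) * m + (w3 * u1 - u3 * w1) * r) /
    (-(u3 * w2 - w3 * u2) ^ 2 - (w3 * u1 - u3 * w1) * (u2 * w1 - w2 * u1)), ?_, ?_, ?_⟩
  · rw [div_mul_eq_mul_div, eq_div_iff hQ]
    linear_combination (w3 * u1 - u3 * w1) * R2
  · rw [div_mul_eq_mul_div, eq_div_iff hQ]
    linear_combination (u3 * w2 - w3 * u2) * R3 - (w3 * u1 - u3 * w1) * R1
  · rw [div_mul_eq_mul_div, eq_div_iff hQ]
    linear_combination -(u3 * w2 - w3 * u2) * R2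

theorem two_fibre (h1 h2 : SL K) (hne : tr (ct h1 h2) ≠ 2) (x : SL K) :
    ∃ t0 : SL K, ∀ y : SL K, tr y = tr x → tr (y * h1) = tr (x * h1) →
      tr (y * h2) = tr (x * h2) → y = x ∨ y = t0 := by
  have hQ := det_comm h1 h2
  have hQ2 : (2 : K) - tr (ct h1 h2) ≠ 0 := fun h => hne (sub_eq_zero.1 h).symm
  rw [← hQ, Matrix.det_fin_two] at hQ2
  simp only [Matrix.sub_apply, Matrix.mul_apply, Fin.sum_univ_two] at hQ2
  by_contra hcon
  push Not at hcon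
  -- every solution is a translate
  have key : ∀ y : SL K, tr y = tr x → tr (y * h1) = tr (x * h1) → tr (y * h2) = tr (x * h2) →
      ∃ t : K, (y : Matrix (Fin 2) (Fin 2) K) 0 0 = (x : Matrix (Fin 2) (Fin 2) K) 0 0 +
          t * ((h1 : Matrix (Fin 2) (Fin 2) K) 0 1 * (h2 : Matrix (Fin 2) (Fin 2) K) 1 0 -
            (h2 : Matrix (Fin 2) (Fin 2) K) 0 1 * (h1 : Matrix (Fin 2) (Fin 2) K) 1 0) ∧
        (y : Matrix (Fin 2) (Fin 2) K) 0 1 = (x : Matrix (Fin 2) (Fin 2) K) 0 1 +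
          t * ((h2 : Matrix (Fin 2) (Fin 2) K) 0 1 * ((h1 : Matrix (Fin 2) (Fin 2) K) 0 0 -
            (h1 : Matrix (Fin 2) (Fin 2) K) 1 1) - (h1 : Matrix (Fin 2) (Fin 2) K) 0 1 *
            ((h2 : Matrix (Fin 2) (Fin 2) K) 0 0 - (h2 : Matrix (Fin 2) (Fin 2) K) 1 1)) ∧
        (y : Matrix (Fin 2) (Fin 2) K) 1 0 = (x : Matrix (Fin 2) (Fin 2) K) 1 0 +
          t * ((h1 : Matrix (Fin 2) (Fin 2) K) 1 0 * ((h2 : Matrix (Fin 2) (Fin 2) K) 0 0 -
            (h2 : Matrix (Fin 2) (Fin 2) K) 1 1) - (h2 : Matrix (Fin 2) (Fin 2) K) 1 0 *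
            ((h1 : Matrix (Fin 2) (Fin 2) K) 0 0 - (h1 : Matrix (Fin 2) (Fin 2) K) 1 1)) ∧
        (y : Matrix (Fin 2) (Fin 2) K) 1 1 = (x : Matrix (Fin 2) (Fin 2) K) 1 1 -
          t * ((h1 : Matrix (Fin 2) (Fin 2) K) 0 1 * (h2 : Matrix (Fin 2) (Fin 2) K) 1 0 -
            (h2 : Matrix (Fin 2) (Fin 2) K) 0 1 * (h1 : Matrix (Fin 2) (Fin 2) K) 1 0) ∧
        t * (t * (-((h1 : Matrix (Fin 2) (Fin 2) K) 0 1 * (h2 : Matrix (Fin 2) (Fin 2) K) 1 0 -
            (h2 : Matrix (Fin 2) (Fin 2) K) 0 1 * (h1 : Matrix (Fin 2) (Fin 2) K) 1 0) ^ 2 -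
            ((h2 : Matrix (Fin 2) (Fin 2) K) 0 1 * ((h1 : Matrix (Fin 2) (Fin 2) K) 0 0 -
            (h1 : Matrix (Fin 2) (Fin 2) K) 1 1) - (h1 : Matrix (Fin 2) (Fin 2) K) 0 1 *
            ((h2 : Matrix (Fin 2) (Fin 2) K) 0 0 - (h2 : Matrix (Fin 2) (Fin 2) K) 1 1)) *
            ((h1 : Matrix (Fin 2) (Fin 2) K) 1 0 * ((h2 : Matrix (Fin 2) (Fin 2) K) 0 0 -
            (h2 : Matrix (Fin 2) (Fin 2) K) 1 1) - (h2 : Matrix (Fin 2) (Fin 2) K) 1 0 *
            ((h1 : Matrix (Fin 2) (Fin 2) K) 0 0 - (h1 : Matrix (Fin 2) (Fin 2) K) 1 1))) +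
          (((h1 : Matrix (Fin 2) (Fin 2) K) 0 1 * (h2 : Matrix (Fin 2) (Fin 2) K) 1 0 -
            (h2 : Matrix (Fin 2) (Fin 2) K) 0 1 * (h1 : Matrix (Fin 2) (Fin 2) K) 1 0) *
            ((x : Matrix (Fin 2) (Fin 2) K) 1 1 - (x : Matrix (Fin 2) (Fin 2) K) 0 0) -
            ((h2 : Matrix (Fin 2) (Fin 2) K) 0 1 * ((h1 : Matrix (Fin 2) (Fin 2) K) 0 0 -
            (h1 : Matrix (Fin 2) (Fin 2) K) 1 1) - (h1 : Matrix (Fin 2) (Fin 2) K) 0 1 *
            ((h2 : Matrix (Fin 2) (Fin 2) K) 0 0 - (h2 : Matrix (Fin 2) (Fin 2) K) 1 1)) *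
              (x : Matrix (Fin 2) (Fin 2) K) 1 0 -
            ((h1 : Matrix (Fin 2) (Fin 2) K) 1 0 * ((h2 : Matrix (Fin 2) (Fin 2) K) 0 0 -
            (h2 : Matrix (Fin 2) (Fin 2) K) 1 1) - (h2 : Matrix (Fin 2) (Fin 2) K) 1 0 *
            ((h1 : Matrix (Fin 2) (Fin 2) K) 0 0 - (h1 : Matrix (Fin 2) (Fin 2) K) 1 1)) *
              (x : Matrix (Fin 2) (Fin 2) K) 0 1)) = 0 := by
    intro y t1 t2 t3
    rw [tr_eq, tr_eq] at t1
    rw [tr_eq, tr_eq, mul_ent, mul_ent, mul_ent, mul_ent] at t2 t3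
    obtain ⟨t, e1, e2, e3⟩ := orth
      ((h1 : Matrix (Fin 2) (Fin 2) K) 0 0 - (h1 : Matrix (Fin 2) (Fin 2) K) 1 1)
      ((h1 : Matrix (Fin 2) (Fin 2) K) 1 0) ((h1 : Matrix (Fin 2) (Fin 2) K) 0 1)
      ((h2 : Matrix (Fin 2) (Fin 2) K) 0 0 - (h2 : Matrix (Fin 2) (Fin 2) K) 1 1)
      ((h2 : Matrix (Fin 2) (Fin 2) K) 1 0) ((h2 : Matrix (Fin 2) (Fin 2) K) 0 1)
      ((y : Matrix (Fin 2) (Fin 2) K) 0 0 - (x : Matrix (Fin 2) (Fin 2) K) 0 0)
      ((y : Matrix (Fin 2) (Fin 2) K) 0 1 - (x : Matrix (Fin 2) (Fin 2) K) 0 1)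
      ((y : Matrix (Fin 2) (Fin 2) K) 1 0 - (x : Matrix (Fin 2) (Fin 2) K) 1 0)
      (by linear_combination t2 - (h1 : Matrix (Fin 2) (Fin 2) K) 1 1 * t1)
      (by linear_combination t3 - (h2 : Matrix (Fin 2) (Fin 2) K) 1 1 * t1)
      (by
        intro h
        apply hQ2
        linear_combination h)
    have f1 : (y : Matrix (Fin 2) (Fin 2) K) 0 0 = (x : Matrix (Fin 2) (Fin 2) K) 0 0 +
          t * ((h1 : Matrix (Fin 2) (Fin 2) K) 0 1 * (h2 : Matrix (Fin 2) (Fin 2) K) 1 0 -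
            (h2 : Matrix (Fin 2) (Fin 2) K) 0 1 * (h1 : Matrix (Fin 2) (Fin 2) K) 1 0) := by
      linear_combination e1
    have f2 : (y : Matrix (Fin 2) (Fin 2) K) 0 1 = (x : Matrix (Fin 2) (Fin 2) K) 0 1 +
          t * ((h2 : Matrix (Fin 2) (Fin 2) K) 0 1 * ((h1 : Matrix (Fin 2) (Fin 2) K) 0 0 -
            (h1 : Matrix (Fin 2) (Fin 2) K) 1 1) - (h1 : Matrix (Fin 2) (Fin 2) K) 0 1 *
            ((h2 : Matrix (Fin 2) (Fin 2) K) 0 0 -
              (h2 : Matrix (Fin 2) (Fin 2) K) 1 1)) := by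
      linear_combination e2
    have f3 : (y : Matrix (Fin 2) (Fin 2) K) 1 0 = (x : Matrix (Fin 2) (Fin 2) K) 1 0 +
          t * ((h1 : Matrix (Fin 2) (Fin 2) K) 1 0 * ((h2 : Matrix (Fin 2) (Fin 2) K) 0 0 -
            (h2 : Matrix (Fin 2) (Fin 2) K) 1 1) - (h2 : Matrix (Fin 2) (Fin 2) K) 1 0 *
            ((h1 : Matrix (Fin 2) (Fin 2) K) 0 0 -
              (h1 : Matrix (Fin 2) (Fin 2) K) 1 1)) := by
      linear_combination e3
    have f4 : (y : Matrix (Fin 2) (Fin 2) K) 1 1 = (x : Matrix (Fin 2) (Fin 2) K) 1 1 -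
          t * ((h1 : Matrix (Fin 2) (Fin 2) K) 0 1 * (h2 : Matrix (Fin 2) (Fin 2) K) 1 0 -
            (h2 : Matrix (Fin 2) (Fin 2) K) 0 1 * (h1 : Matrix (Fin 2) (Fin 2) K) 1 0) := by
      linear_combination t1 - e1
    refine ⟨t, f1, f2, f3, f4, ?_⟩
    have d1 := det_eq y
    have d2 := det_eq x
    rw [f1, f2, f3, f4] at d1
    linear_combination d1 - d2
  obtain ⟨y, y1, y2, y3, yx, -⟩ := hcon x
  obtain ⟨z, z1, z2, z3, zx, zy⟩ := hcon y
  obtain ⟨t, a1, a2, a3, a4, a5⟩ := key y y1 y2 y3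
  obtain ⟨s, b1, b2, b3, b4, b5⟩ := key z z1 z2 z3
  have ht : t ≠ 0 := by
    rintro rfl
    apply yx
    apply sl_ext
    · rw [a1]; ring
    · rw [a2]; ring
    · rw [a3]; ring
    · rw [a4]; ring
  have hs : s ≠ 0 := by
    rintro rfl
    apply zx
    apply sl_ext
    · rw [b1]; ring
    · rw [b2]; ring
    · rw [b3]; ring
    · rw [b4]; ring
  have a6 := (mul_eq_zero.1 a5).resolve_left ht
  have b6 := (mul_eq_zero.1 b5).resolve_left hs
  have hst : s = t := by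
    apply mul_right_cancel₀ hQ2
    linear_combination b6 - a6
  subst hst
  apply zy
  apply sl_ext
  · rw [a1, b1]
  · rw [a2, b2]
  · rw [a3, b3]
  · rw [a4, b4]

open Classical in
theorem st_TRC : ST_TRC := by
  intro K _ h1 h2 hne X
  have hfib : ∀ q ∈ X.image (fun x => (tr x, tr (x * h1), tr (x * h2))),
      (X.filter (fun x => (tr x, tr (x * h1), tr (x * h2)) = q)).card ≤ 2 := by
    intro q hq
    obtain ⟨x, -, rfl⟩ := Finset.mem_image.1 hq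
    obtain ⟨t0, ht0⟩ := two_fibre h1 h2 hne x
    refine (Finset.card_le_card (t := {x, t0}) ?_).trans Finset.card_le_two
    intro y hy
    have hy2 := (Finset.mem_filter.1 hy).2
    simp only [Prod.mk.injEq] at hy2
    rw [Finset.mem_insert, Finset.mem_singleton]
    exact ht0 y hy2.1 hy2.2.1 hy2.2.2
  have h3 := Finset.card_le_mul_card_image (f := fun x => (tr x, tr (x * h1), tr (x * h2))) X 2 hfib
  have h4 : (X.image (fun x => (tr x, tr (x * h1), tr (x * h2)))).card ≤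
      ((X.image (fun x => tr x)) ×ˢ ((X.image (fun x => tr (x * h1))) ×ˢ
        (X.image (fun x => tr (x * h2))))).card := by
    apply Finset.card_le_card
    intro q hq
    obtain ⟨x, hx, rfl⟩ := Finset.mem_image.1 hq
    exact Finset.mem_product.2 ⟨Finset.mem_image_of_mem _ hx,
      Finset.mem_product.2 ⟨Finset.mem_image_of_mem _ hx, Finset.mem_image_of_mem _ hx⟩⟩
  rw [Finset.card_product, Finset.card_product] at h4
  calc X.card ≤ 2 * (X.image (fun x => (tr x, tr (x * h1), tr (x * h2)))).card := h3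
    _ ≤ 2 * ((X.image (fun x => tr x)).card * ((X.image (fun x => tr (x * h1))).card *
        (X.image (fun x => tr (x * h2))).card)) := Nat.mul_le_mul_left 2 h4
    _ = _ := by ring

end Pool.Agent.Helper5.XP
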