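import Pool.Agent.Helper5.XP.FIX
import Pool.Agent.Helper81.XP.StB

set_option autoImplicit false

open Finset
open scoped Pointwise LinearAlgebra.Projectivization

namespace Pool.Agent.Helper5.XP

open Pool.Agent.Helper81.XP

variable {K : Type} [Field K]

/-- the diagonal case -/
theorem trl_diag (a c : SL K) (h1 : c ≠ 1) (h2 : c ≠ -1)
    (c01 : (c : Matrix (Fin 2) (Fin 2) K) 0 1 = 0) (c10 : (c : Matrix (Fin 2) (Fin 2) K) 1 0 = 0)
    (ha : (a : Matrix (Fin 2) (Fin 2) K) 0 0 ≠ 0) (ha' : (a : Matrix (Fin 2) (Fin 2) K) 1 1 ≠ 0) :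
    ∃ h : SL K, ∀ g : SL K, g * c = c * g → tr (a * g) = tr a → g = 1 ∨ g = h := by
  refine ⟨⟨!![(a : Matrix (Fin 2) (Fin 2) K) 1 1 / (a : Matrix (Fin 2) (Fin 2) K) 0 0, 0; 0,
    (a : Matrix (Fin 2) (Fin 2) K) 0 0 / (a : Matrix (Fin 2) (Fin 2) K) 1 1], by
      rw [Matrix.det_fin_two_of]; field_simp; ring⟩, fun g hg ht => ?_⟩
  have hne : (c : Matrix (Fin 2) (Fin 2) K) 0 0 - (c : Matrix (Fin 2) (Fin 2) K) 1 1 ≠ 0 := by
    intro h
    rcases eq_pm_one c c01 c10 (sub_eq_zero.1 h) with h | h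
    · exact h1 h
    · exact h2 h
  have g01 : (g : Matrix (Fin 2) (Fin 2) K) 0 1 = 0 := by
    have := congrArg (fun x : SL K => (x : Matrix (Fin 2) (Fin 2) K) 0 1) hg
    simp only [mul_ent, c01] at this
    apply (mul_eq_zero.1 (show ((c : Matrix (Fin 2) (Fin 2) K) 0 0 -
      (c : Matrix (Fin 2) (Fin 2) K) 1 1) * (g : Matrix (Fin 2) (Fin 2) K) 0 1 = 0 by
        linear_combination -this)).resolve_left hne
  have g10 : (g : Matrix (Fin 2) (Fin 2) K) 1 0 = 0 := by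
    have := congrArg (fun x : SL K => (x : Matrix (Fin 2) (Fin 2) K) 1 0) hg
    simp only [mul_ent, c10] at this
    apply (mul_eq_zero.1 (show ((c : Matrix (Fin 2) (Fin 2) K) 0 0 -
      (c : Matrix (Fin 2) (Fin 2) K) 1 1) * (g : Matrix (Fin 2) (Fin 2) K) 1 0 = 0 by
        linear_combination this)).resolve_left hne
  have hd := det_eq g
  rw [g01, g10] at hd
  rw [tr_eq, tr_eq, mul_ent, mul_ent, g01, g10] at ht
  have g11 : (g : Matrix (Fin 2) (Fin 2) K) 0 0 ≠ 0 := by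
    intro h
    rw [h] at hd
    simp at hd
  have key : ((g : Matrix (Fin 2) (Fin 2) K) 0 0 - 1) *
      ((a : Matrix (Fin 2) (Fin 2) K) 0 0 * (g : Matrix (Fin 2) (Fin 2) K) 0 0 -
        (a : Matrix (Fin 2) (Fin 2) K) 1 1) = 0 := by
    linear_combination (g : Matrix (Fin 2) (Fin 2) K) 0 0 * ht -
      (a : Matrix (Fin 2) (Fin 2) K) 1 1 * hd
  rcases mul_eq_zero.1 key with h | h
  · left
    have h00 : (g : Matrix (Fin 2) (Fin 2) K) 0 0 = 1 := by linear_combination h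
    have h11 : (g : Matrix (Fin 2) (Fin 2) K) 1 1 = 1 := by
      rw [h00] at hd
      linear_combination hd
    apply sl_ext <;> simp [h00, h11, g01, g10]
  · right
    have h00 : (g : Matrix (Fin 2) (Fin 2) K) 0 0 = (a : Matrix (Fin 2) (Fin 2) K) 1 1 /
        (a : Matrix (Fin 2) (Fin 2) K) 0 0 := by
      field_simp
      linear_combination h
    have h11 : (g : Matrix (Fin 2) (Fin 2) K) 1 1 = (a : Matrix (Fin 2) (Fin 2) K) 0 0 /
        (a : Matrix (Fin 2) (Fin 2) K) 1 1 := by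
      apply mul_left_cancel₀ g11
      rw [h00] at hd ⊢
      field_simp
      field_simp at hd
      linear_combination hd
    apply sl_ext
    · simpa using h00
    · simpa using g01
    · simpa using g10
    · simpa using h11

/-- the unipotent case -/
theorem trl_uni (a c : SL K) (h1 : c ≠ 1) (h2 : c ≠ -1)
    (c10 : (c : Matrix (Fin 2) (Fin 2) K) 1 0 = 0)
    (ce : (c : Matrix (Fin 2) (Fin 2) K) 0 0 = (c : Matrix (Fin 2) (Fin 2) K) 1 1)
    (ha : (a : Matrix (Fin 2) (Fin 2) K) 1 0 ≠ 0) :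
    ∃ h : SL K, ∀ g : SL K, g * c = c * g → tr (a * g) = tr a → g = 1 ∨ g = h := by
  refine ⟨⟨!![-1, 2 * tr a / (a : Matrix (Fin 2) (Fin 2) K) 1 0; 0, -1], by
      rw [Matrix.det_fin_two_of]; ring⟩, fun g hg ht => ?_⟩
  have hb : (c : Matrix (Fin 2) (Fin 2) K) 0 1 ≠ 0 := by
    intro h
    rcases eq_pm_one c h c10 ce with h | h
    · exact h1 h
    · exact h2 h
  have g10 : (g : Matrix (Fin 2) (Fin 2) K) 1 0 = 0 := by
    have := congrArg (fun x : SL K => (x : Matrix (Fin 2) (Fin 2) K) 1 1) hg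
    simp only [mul_ent, c10] at this
    exact (mul_eq_zero.1 (show (g : Matrix (Fin 2) (Fin 2) K) 1 0 *
      (c : Matrix (Fin 2) (Fin 2) K) 0 1 = 0 by linear_combination this)).resolve_right hb
  have ge : (g : Matrix (Fin 2) (Fin 2) K) 0 0 = (g : Matrix (Fin 2) (Fin 2) K) 1 1 := by
    have := congrArg (fun x : SL K => (x : Matrix (Fin 2) (Fin 2) K) 0 1) hg
    simp only [mul_ent, ce] at this
    apply mul_left_cancel₀ hb
    linear_combination this
  have hd := det_eq g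
  rw [ge, g10] at hd
  have ht' := ht
  rw [tr_eq, tr_eq, mul_ent, mul_ent, ge, g10] at ht
  rcases mul_self_eq_one_iff.1 (show (g : Matrix (Fin 2) (Fin 2) K) 1 1 *
      (g : Matrix (Fin 2) (Fin 2) K) 1 1 = 1 by linear_combination hd) with h | h
  · left
    rw [h] at ht
    have g01 : (g : Matrix (Fin 2) (Fin 2) K) 0 1 = 0 := by
      apply mul_left_cancel₀ ha
      linear_combination ht
    apply sl_ext <;> simp [h, g01, g10, ge]
  · right
    rw [h] at ht
    have g01 : (g : Matrix (Fin 2) (Fin 2) K) 0 1 =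
        2 * tr a / (a : Matrix (Fin 2) (Fin 2) K) 1 0 := by
      rw [tr_eq]
      field_simp
      linear_combination ht
    apply sl_ext
    · simp [h, ge]
    · simpa using g01
    · simpa using g10
    · simp [h]

theorem st_TRL : ST_TRL := by
  intro K _ _ a c h1 h2 ha
  obtain ⟨ξ1, ξ2, hf, -⟩ := st_FIX K c h1 h2
  have f1 : c • ξ1 = ξ1 := (hf ξ1).2 (Or.inl rfl)
  have f2 : c • ξ2 = ξ2 := (hf ξ2).2 (Or.inr rfl)
  have tr1 : ∀ m : SL K, (∃ h : SL K, ∀ g : SL K, g * (m * c * m⁻¹) = (m * c * m⁻¹) * g →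
      tr ((m * a * m⁻¹) * g) = tr (m * a * m⁻¹) → g = 1 ∨ g = h) →
      ∃ h : SL K, ∀ g : SL K, g * c = c * g → tr (a * g) = tr a → g = 1 ∨ g = h := by
    rintro m ⟨h, hh⟩
    refine ⟨m⁻¹ * h * m, fun g hg ht => ?_⟩
    have e1 : (m * g * m⁻¹) * (m * c * m⁻¹) = (m * c * m⁻¹) * (m * g * m⁻¹) := by
      calc (m * g * m⁻¹) * (m * c * m⁻¹) = m * (g * c) * m⁻¹ := by group
        _ = m * (c * g) * m⁻¹ := by rw [hg]
        _ = _ := by group
    have e2 : tr ((m * a * m⁻¹) * (m * g * m⁻¹)) = tr (m * a * m⁻¹) := by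
      have : (m * a * m⁻¹) * (m * g * m⁻¹) = m * (a * g) * m⁻¹ := by group
      rw [this, tr_conj, tr_conj, ht]
    rcases hh _ e1 e2 with h3 | h3
    · left
      by_contra h4
      exact conj_ne_one m g h4 h3
    · right
      rw [← h3]
      group
  by_cases he : ξ1 = ξ2
  · subst he
    obtain ⟨m, hm⟩ := exists_move1 ξ1
    apply tr1 m
    have hfix : (m * c * m⁻¹) • e1 K = e1 K := by
      rw [← hm, conj_smul_eq_iff, f1]
    have h10 := (smul_e1_eq_e1 _).1 hfix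
    have hce : ((m * c * m⁻¹ : SL K) : Matrix (Fin 2) (Fin 2) K) 0 0 =
        ((m * c * m⁻¹ : SL K) : Matrix (Fin 2) (Fin 2) K) 1 1 := by
      by_contra hne
      have hsub : ((m * c * m⁻¹ : SL K) : Matrix (Fin 2) (Fin 2) K) 1 1 -
          ((m * c * m⁻¹ : SL K) : Matrix (Fin 2) (Fin 2) K) 0 0 ≠ 0 :=
        fun h => hne (sub_eq_zero.1 h).symm
      have h3 : (m * c * m⁻¹) • pp (((m * c * m⁻¹ : SL K) : Matrix (Fin 2) (Fin 2) K) 0 1 /
          (((m * c * m⁻¹ : SL K) : Matrix (Fin 2) (Fin 2) K) 1 1 -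
          ((m * c * m⁻¹ : SL K) : Matrix (Fin 2) (Fin 2) K) 0 0)) =
          pp (((m * c * m⁻¹ : SL K) : Matrix (Fin 2) (Fin 2) K) 0 1 /
          (((m * c * m⁻¹ : SL K) : Matrix (Fin 2) (Fin 2) K) 1 1 -
          ((m * c * m⁻¹ : SL K) : Matrix (Fin 2) (Fin 2) K) 0 0)) := by
        rw [smul_pp_eq_pp, h10]
        field_simp
        ring
      rw [conj_fix_iff, hf, or_self] at h3
      rw [← h3, smul_inv_smul] at hm
      exact pp_ne_e1 _ hm
    refine trl_uni _ _ (conj_ne_one m c h1) (conj_ne_neg_one m c h2) h10 hce ?_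
    intro h4
    rw [← smul_e1_eq_e1, ← hm, conj_smul_eq_iff] at h4
    exact ha ξ1 ξ1 f1 f1 h4
  · obtain ⟨m, hm1, hm2⟩ := exists_move ξ1 ξ2 he
    apply tr1 m
    have hfix1 : (m * c * m⁻¹) • e1 K = e1 K := by
      rw [← hm1, conj_smul_eq_iff, f1]
    have hfix2 : (m * c * m⁻¹) • e2 K = e2 K := by
      rw [← hm2, conj_smul_eq_iff, f2]
    refine trl_diag _ _ (conj_ne_one m c h1) (conj_ne_neg_one m c h2)
      ((smul_e2_eq_e2 _).1 hfix2) ((smul_e1_eq_e1 _).1 hfix1) ?_ ?_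
    · intro h4
      rw [← smul_e1_eq_e2, ← hm1, ← hm2, conj_smul_eq_iff] at h4
      exact ha ξ1 ξ2 f1 f2 h4
    · intro h4
      rw [← smul_e2_eq_e1, ← hm1, ← hm2, conj_smul_eq_iff] at h4
      exact ha ξ2 ξ1 f2 f1 h4

end Pool.Agent.Helper5.XP
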